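import Mathlib

namespace Pool.Agent.H.MP_a9bf58_lc

open Set

/-- the Urysohn space: complete, separable, with the one-point extension property -/
def Urysohn (U : Type) [MetricSpace U] : Prop :=
  CompleteSpace U ∧ TopologicalSpace.SeparableSpace U ∧
    ∀ (s : Finset U) (f : U → ℝ),
      (∀ x ∈ s, ∀ y ∈ s, |f x - f y| ≤ dist x y ∧ dist x y ≤ f x + f y) →
        ∃ z, ∀ x ∈ s, dist z x = f x

/-- closed subsets -/
def F (U : Type) [MetricSpace U] : Type := {A : Set U // IsClosed A}

/-- the Effros Borel structure -/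
instance effros (U : Type) [MetricSpace U] : MeasurableSpace (F U) :=
  MeasurableSpace.generateFrom {S | ∃ V : Set U, IsOpen V ∧ S = {A | (A.1 ∩ V).Nonempty}}

/-- homeomorphic closed sets -/
def Homeo {U : Type} [MetricSpace U] (A B : F U) : Prop := Nonempty (A.1 ≃ₜ B.1)

/-- analytic sets: projections of Borel sets along the Baire space -/
def Analytic {X : Type} [MeasurableSpace X] (S : Set X) : Prop :=
  ∃ M : Set (X × (ℕ → ℕ)), MeasurableSet M ∧ S = Prod.fst '' M

end Pool.Agent.H.MP_a9bf58_lc
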