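import Mathlib
import Pool.Agent.H.MP_a9bf58_lc.Defs
import Pool.Agent.H.MP_78c86a_lc.C

namespace Pool.Agent.H.MP_a9bf58_lc

open Set Function Filter Topology MeasureTheory Pool.Agent.H.MP_86dbc5_an

theorem emb {U : Type} [MetricSpace U] (hU : Urysohn U) (d : ℕ → ℕ → ℝ) (h0 : ∀ i, d i i = 0)
    (h1 : ∀ i j, d i j = d j i) (h2 : ∀ i j k, d i k ≤ d i j + d j k) :
    ∃ ψ : ℕ → U, ∀ i j, dist (ψ i) (ψ j) = d i j := by
  classical
  have step : ∀ n (ψ : ℕ → U), (∀ i < n, ∀ j < n, dist (ψ i) (ψ j) = d i j) →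
      ∃ z, ∀ i < n, dist z (ψ i) = d n i := fun n ψ h => by
    have e : ∀ i < n, ∀ j < n, ψ i = ψ j → d n i = d n j := fun i hi j hj e => by
      have a := h i hi j hj
      rw [e, dist_self] at a
      have := h2 n i j
      have := h2 n j i
      have := h1 i j
      linarith
    obtain ⟨f, hf⟩ : ∃ f : U → ℝ, ∀ i < n, f (ψ i) = d n i :=
      ⟨fun u => if hu : ∃ i < n, ψ i = u then d n hu.choose else 0, fun i hi => by
        have hu : ∃ j < n, ψ j = ψ i := ⟨i, hi, rfl⟩
        simp only [dif_pos hu]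
        exact e _ hu.choose_spec.1 _ hi hu.choose_spec.2⟩
    obtain ⟨z, hz⟩ := hU.2.2 ((Finset.range n).image ψ) f (by
      simp only [Finset.forall_mem_image, Finset.mem_range]
      intro i hi j hj
      rw [hf i hi, hf j hj, h i hi j hj, abs_le]
      have := h2 n i j
      have := h2 n j i
      have := h2 i n j
      have := h1 i j
      have := h1 i n
      exact ⟨⟨by linarith, by linarith⟩, by linarith⟩)
    exact ⟨z, fun i hi => (hz _ (Finset.mem_image_of_mem _ (Finset.mem_range.2 hi))).trans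
      (hf i hi)⟩
  obtain ⟨u, -⟩ := hU.2.2 ∅ 0 (by simp)
  haveI : Nonempty U := ⟨u⟩
  choose! z hz using step
  obtain ⟨Ψ, hΨ⟩ : ∃ Ψ : ℕ → ℕ → U, ∀ n, Ψ (n + 1) = update (Ψ n) n (z n (Ψ n)) :=
    ⟨fun n => Nat.rec (fun _ => u) (fun n ψ => update ψ n (z n ψ)) n, fun _ => rfl⟩
  have a : ∀ n, ∀ i < n, ∀ j < n, dist (Ψ n i) (Ψ n j) = d i j := fun n => by
    induction n with
    | zero => simp
    | succ n ih =>
      intro i hi j hj
      rw [hΨ]
      rcases (Nat.lt_succ_iff.1 hi).eq_or_lt with rfl | hi <;>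
        rcases (Nat.lt_succ_iff.1 hj).eq_or_lt with rfl | hj
      · simp [h0]
      · rw [update_self, update_of_ne hj.ne, hz _ _ ih _ hj]
      · rw [update_self, update_of_ne hi.ne, dist_comm, hz _ _ ih _ hi, h1]
      · rw [update_of_ne hi.ne, update_of_ne hj.ne, ih _ hi _ hj]
  have b : ∀ i n, i < n → Ψ n i = Ψ (i + 1) i := fun i n h => by
    induction n, h using Nat.le_induction with
    | base => rfl
    | succ n h ih => rw [hΨ, update_of_ne (by omega), ih]
  refine ⟨fun i => Ψ (i + 1) i, fun i j => ?_⟩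
  beta_reduce
  rw [← b i (i + j + 1) (by omega), ← b j (i + j + 1) (by omega), a _ _ (by omega) _ (by omega)]

/-- final segments -/
def sfx (s : List ℕ) (k : ℕ) : List ℕ := s.drop (s.length - k)

theorem sfx_self {s : List ℕ} {k : ℕ} (h : s.length ≤ k) : sfx s k = s := by
  simp [sfx, Nat.sub_eq_zero_of_le h]

theorem sfx_len {s : List ℕ} {k : ℕ} (h : k ≤ s.length) : (sfx s k).length = k := by
  simp [sfx]
  omega

theorem sfx_succ {s : List ℕ} {k : ℕ} (h : k < s.length) : ∃ i, sfx s (k + 1) = i :: sfx s k :=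
  ⟨_, by
    rw [sfx, List.drop_eq_getElem_cons (by omega), sfx,
      show s.length - (k + 1) + 1 = s.length - k by omega]⟩

theorem sfx_nd (b : ℕ → ℕ) {k n : ℕ} (h : k ≤ n) : sfx (nd b n) k = nd b k := by
  induction n, h using Nat.le_induction with
  | base => exact sfx_self (nd_length _ _).le
  | succ n h ih =>
    rw [← ih, sfx, sfx, nd_length, nd_length, show n + 1 - k = n - k + 1 by omega]
    rfl

theorem emb2 {U : Type} [MetricSpace U] (hU : Urysohn U) : ∃ φ : List ℕ → U, Injective φ ∧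
    (∀ s t n, dist (φ s) (φ t) < (1 / 2) ^ n → ∀ k ≤ n, sfx s k = sfx t k) ∧
    ∀ s t n, (∀ k < n, sfx s k = sfx t k) → dist (φ s) (φ t) ≤ (1 / 2) ^ n := by
  letI : Dist (ℕ → List ℕ) := PiNat.dist
  obtain ⟨ψ, h⟩ := emb hU
    (fun i j => dist (sfx (Denumerable.ofNat _ i)) (sfx (Denumerable.ofNat _ j)))
    (fun _ => PiNat.dist_self _) (fun _ _ => PiNat.dist_comm _ _)
    fun _ _ _ => PiNat.dist_triangle _ _ _
  have e : ∀ s t : List ℕ, dist (ψ (Encodable.encode s)) (ψ (Encodable.encode t)) =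
    dist (sfx s) (sfx t) := fun s t => by simp [h]
  refine ⟨fun s => ψ (Encodable.encode s), fun s t h => ?_, fun s t n h k hk => ?_,
    fun s t n h => ?_⟩
  · have := congrFun (PiNat.eq_of_dist_eq_zero _ _ ((e s t).symm.trans (dist_eq_zero.2 h)))
      (s.length + t.length)
    rwa [sfx_self (by omega), sfx_self (by omega)] at this
  · exact PiNat.apply_eq_of_dist_lt ((e s t).symm.trans_lt h) hk
  · exact (e s t).trans_le (PiNat.mem_cylinder_iff_dist_le.1 h)

/-- the tree of a predicate, with extra isolated nodes -/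
def T (C : List ℕ → Prop) : Set (List ℕ) := {s | s.length = 1 ∨ ∀ k < s.length, C (sfx s (k + 1))}

theorem wf {U : Type} [MetricSpace U] {φ : List ℕ → U} (h0 : Injective φ)
    (h1 : ∀ s t n, dist (φ s) (φ t) < (1 / 2) ^ n → ∀ k ≤ n, sfx s k = sfx t k)
    {C : List ℕ → Prop}
    (h : ¬ ∃ (t : ℕ → List ℕ) (i : ℕ → ℕ), ∀ n, t (n + 1) = i n :: t n ∧ C (t (n + 1))) :
    Nonempty (closure (φ '' T C) ≃ₜ ℕ) := by
  obtain ⟨a, b⟩ : IsClosed (φ '' T C) ∧ IsDiscrete (φ '' T C) := by
    refine isClosed_and_discrete_iff.2 fun u => by_contra fun hn => h ?_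
    have hu : AccPt u (𝓟 (φ '' T C)) := ⟨fun e => hn (disjoint_iff.2 e)⟩
    have : ∀ n : ℕ, ∃ s ∈ T C, dist (φ s) u < (1 / 2) ^ n / 2 ∧ n ≤ s.length := fun n => by
      have p : (0 : ℝ) < (1 / 2) ^ n / 2 := by positivity
      obtain ⟨_, ⟨s1, s, s2, rfl⟩, s3⟩ := accPt_iff_nhds.1 hu _ (Metric.ball_mem_nhds u p)
      obtain ⟨_, ⟨t1, t, t2, rfl⟩, -⟩ := accPt_iff_nhds.1 hu _ (Metric.ball_mem_nhds u
        (lt_min p (dist_pos.2 s3)))
      rw [Metric.mem_ball, lt_min_iff] at t1
      have e := h1 s t n ((dist_triangle_right _ _ u).trans_lt (by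
        linarith [Metric.mem_ball.1 s1, t1.1])) n le_rfl
      by_cases hs : n ≤ s.length
      · exact ⟨s, s2, s1, hs⟩
      · refine ⟨t, t2, t1.1, by_contra fun ht => ?_⟩
        rw [sfx_self (by omega), sfx_self (by omega)] at e
        exact t1.2.ne (by rw [e])
    choose s s1 s2 s3 using this
    have e : ∀ n, sfx (s (n + 2)) n = sfx (s (n + 1)) n := fun n =>
      h1 _ _ n ((dist_triangle_right _ _ u).trans_lt (by
        have := s2 (n + 2)
        have := s2 (n + 1)
        have : (0 : ℝ) < (1 / 2) ^ n := by positivity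
        simp only [pow_succ] at *
        linarith)) n le_rfl
    choose i hi using fun n => sfx_succ (s := s (n + 2)) (k := n) (by linarith [s3 (n + 2)])
    refine ⟨fun n => sfx (s (n + 1)) n, i, fun n => ⟨(hi n).trans (by rw [e]), ?_⟩⟩
    have := s3 (n + 2)
    exact (s1 (n + 2)).resolve_left (by omega) n (by omega)
  rw [a.closure_eq]
  haveI := b.to_subtype
  haveI := ((to_countable (T C)).image φ).to_subtype
  haveI : Infinite (φ '' T C) := Infinite.of_injective
    (fun n : ℕ => (⟨φ [n], _, Or.inl rfl, rfl⟩ : φ '' T C)) fun n m h => by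
      simpa using h0 (congrArg Subtype.val h)
  obtain ⟨e⟩ : Nonempty (φ '' T C ≃ ℕ) := nonempty_equiv_of_countable
  exact ⟨e.toHomeomorphOfDiscrete⟩

theorem ill {U : Type} [MetricSpace U] [CompleteSpace U] {φ : List ℕ → U} (h0 : Injective φ)
    (h2 : ∀ s t n, (∀ k < n, sfx s k = sfx t k) → dist (φ s) (φ t) ≤ (1 / 2) ^ n)
    {C : List ℕ → Prop} {b : ℕ → ℕ} (hb : ∀ n, C (nd b (n + 1))) :
    ¬ DiscreteTopology (closure (φ '' T C)) := fun h => by
  obtain ⟨u, hu⟩ := cauchySeq_tendsto_of_complete (cauchySeq_of_le_geometric (1 / 2) 1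
    (f := fun n => φ (nd b n)) (by norm_num) fun n => by
      rw [one_mul]
      exact h2 _ _ _ fun k hk => by rw [sfx_nd b hk.le, sfx_nd b (by omega)])
  have m : ∀ n, φ (nd b n) ∈ φ '' T C := fun n => ⟨_, Or.inr fun k hk => by
    rw [sfx_nd b (by simpa [nd_length] using hk)]
    exact hb k, rfl⟩
  have := (tendsto_subtype_rng (f := fun n => (⟨_, subset_closure (m n)⟩ : closure (φ '' T C)))
    (x := ⟨u, mem_closure_of_tendsto hu (Eventually.of_forall m)⟩)).2 hu
  rw [nhds_discrete, tendsto_pure, eventually_atTop] at this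
  obtain ⟨n, hn⟩ := this
  have := congrArg List.length (h0 (congrArg Subtype.val ((hn n le_rfl).trans
    (hn (n + 1) (by omega)).symm)))
  simp [nd_length] at this

theorem main {U : Type} [MetricSpace U] (hU : Urysohn U) : ∃ (B : Set (ℕ → ℕ))
    (A : (ℕ → ℕ) → F U) (A₀ : F U), AnalyticSet B ∧ ¬ MeasurableSet B ∧ Measurable A ∧
      ∀ y, y ∉ B ↔ Homeo (A y) A₀ := by
  obtain ⟨S, hS, hS2⟩ := MP_78c86a_lc.nonborel
  have c : Continuous fun (x : ℕ → Bool) n => (x n).toNat := continuous_pi fun n =>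
    (continuous_of_discreteTopology (f := Bool.toNat)).comp (continuous_apply n)
  have i : Injective fun (x : ℕ → Bool) n => (x n).toNat := fun x y h => funext fun n => by
    have : (x n).toNat = (y n).toNat := congrFun h n
    revert this
    cases x n <;> cases y n <;> simp
  obtain ⟨C, c1, c2, c3⟩ := tree (hS.image_of_continuous c)
  obtain ⟨φ, h0, h1, h2⟩ := emb2 hU
  haveI := hU.1
  have mC : ∀ s, Measurable fun y => C y s := fun s => measurableSet_setOfPred.1 (by
    simpa using ((c1 s).isClopen_fiber True).isOpen.measurableSet)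
  obtain ⟨e⟩ := wf h0 h1 (C := fun _ => False) fun ⟨_, _, h⟩ => (h 0).2
  refine ⟨_, fun y => ⟨closure (φ '' T (C y)), isClosed_closure⟩, 
    ⟨closure (φ '' T fun _ => False), isClosed_closure⟩, hS.image_of_continuous c,
    fun h => hS2 (by
      simpa only [preimage_image_eq _ i] using c.measurable h), measurable_generateFrom ?_,
    fun y => ⟨fun h => ?_, fun ⟨h⟩ hy => ?_⟩⟩
  · rintro _ ⟨V, hV, rfl⟩
    simp only [preimage, mem_ofPred_eq, closure_inter_open_nonempty_iff hV, image_inter_nonempty_iff]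
    exact measurableSet_setOfPred.2 (Measurable.exists fun s =>
      (measurable_const.or (Measurable.forall fun k => measurable_const.imp (mC _))).and
        measurable_const)
  · obtain ⟨f⟩ := wf h0 h1 (C := C y) fun ⟨t, i, ht⟩ => h (c3 y t i ht)
    exact ⟨f.trans e.symm⟩
  · obtain ⟨b, hb⟩ := c2 y hy
    exact ill h0 h2 hb (h.trans e).symm.discreteTopology

end Pool.Agent.H.MP_a9bf58_lc
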